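import Pool.Agent.W758.AHC.Stm2

/-! Project AHC, part UPV: the induction -/

set_option autoImplicit false

namespace Pool.Agent.W403.AHC

open Pool.Agent.W758.AHC

lemma small (hPF : S_PF) {ι : Type} [DecidableEq ι] (l : ℕ) (V : Finset ι)
    (A B : Finset (Finset ι)) (hA : ∀ a ∈ A, a ⊆ V) (hB : ∀ b ∈ B, b ⊆ V)
    (hAne : A.Nonempty) (hA2 : A.card ≤ 2)
    (hx : ∀ x ∈ V, A.card < 2 * (A.filter (fun a => x ∈ a)).card)
    (hAB : ∀ a ∈ A, ∀ b ∈ B, (a ∩ b).card = l) : A.card * B.card ≤ Pmax l V.card := by
  have hall : ∀ a ∈ A, a = V := by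
    intro a ha
    refine Finset.Subset.antisymm (hA a ha) ?_
    intro x hxV
    have h1 := hx x hxV
    have h2 : (A.filter (fun a => x ∈ a)).card ≤ A.card := Finset.card_filter_le _ _
    have h3 : 0 < A.card := Finset.card_pos.mpr hAne
    have h4 : (A.filter (fun a => x ∈ a)).card = A.card := by omega
    have h5 : A.filter (fun a => x ∈ a) = A :=
      Finset.eq_of_subset_of_card_le (Finset.filter_subset _ _) h4.ge
    rw [← h5, Finset.mem_filter] at ha
    exact ha.2
  have hA1 : A.card ≤ 1 := by
    rw [Finset.card_le_one]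
    intro a ha b hb
    rw [hall a ha, hall b hb]
  have hB1 : B.card ≤ V.card.choose l := by
    rw [← Finset.card_powersetCard]
    apply Finset.card_le_card
    intro b hb
    rw [Finset.mem_powersetCard]
    refine ⟨hB b hb, ?_⟩
    obtain ⟨a, ha⟩ := hAne
    have h1 := hAB a ha b hb
    rw [hall a ha, Finset.inter_eq_right.mpr (hB b hb)] at h1
    exact h1
  calc A.card * B.card ≤ 1 * V.card.choose l := Nat.mul_le_mul hA1 hB1
    _ = V.card.choose l := one_mul _
    _ ≤ Pmax l V.card := hPF.2.1 l V.card

theorem upv : S_PF → S_REC → S_AVG → S_REGV → S_UPV := by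
  intro hPF hREC hAVG hREG ι _ l V A B
  have main : ∀ (n l : ℕ) (V : Finset ι) (A B : Finset (Finset ι)), V.card = n →
      (∀ a ∈ A, a ⊆ V) → (∀ b ∈ B, b ⊆ V) → (∀ a ∈ A, ∀ b ∈ B, (a ∩ b).card = l) →
      A.card * B.card ≤ Pmax l V.card := by
    intro n
    induction n using Nat.strong_induction_on with
    | _ n ih =>
      intro l V A B hn hA hB hAB
      have ih' : ∀ x ∈ V, ∀ (l' : ℕ) (A' B' : Finset (Finset ι)), (∀ a ∈ A', a ⊆ V.erase x) →
          (∀ b ∈ B', b ⊆ V.erase x) → (∀ a ∈ A', ∀ b ∈ B', (a ∩ b).card = l') →
          A'.card * B'.card ≤ Pmax l' (V.erase x).card := by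
        intro x hx l' A' B' h1 h2 h3
        refine ih (V.erase x).card ?_ l' _ A' B' rfl h1 h2 h3
        rw [← hn]
        exact Finset.card_erase_lt_of_mem hx
      by_cases hx1 : ∃ x ∈ V, 2 * (A.filter (fun a => x ∈ a)).card ≤ A.card
      · obtain ⟨x, hx, h⟩ := hx1
        exact hREC hPF ι l V A B x hx hA hB hAB (ih' x hx l) h
      by_cases hx2 : ∃ x ∈ V, 2 * (B.filter (fun a => x ∈ a)).card ≤ B.card
      · obtain ⟨x, hx, h⟩ := hx2
        rw [mul_comm]
        exact hREC hPF ι l V B A x hx hB hA
          (fun b hb a ha => by rw [Finset.inter_comm]; exact hAB a ha b hb) (ih' x hx l) h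
      push Not at hx1 hx2
      rcases A.eq_empty_or_nonempty with rfl | hAne
      · simp
      rcases B.eq_empty_or_nonempty with rfl | hBne
      · simp
      rcases Nat.eq_zero_or_pos l with rfl | hl
      · rcases V.eq_empty_or_nonempty with rfl | ⟨x, hx⟩
        · have hA1 : A.card ≤ 1 := by
            rw [Finset.card_le_one]
            intro a ha b hb
            rw [Finset.subset_empty.mp (hA a ha), Finset.subset_empty.mp (hA b hb)]
          have hB1 : B.card ≤ 1 := by
            rw [Finset.card_le_one]
            intro a ha b hb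
            rw [Finset.subset_empty.mp (hB a ha), Finset.subset_empty.mp (hB b hb)]
          have h1 := hPF.2.1 0 (∅ : Finset ι).card
          rw [Nat.choose_zero_right] at h1
          calc A.card * B.card ≤ 1 * 1 := Nat.mul_le_mul hA1 hB1
            _ ≤ Pmax 0 (∅ : Finset ι).card := h1
        · exfalso
          have h1 := hx1 x hx
          have h2 := hx2 x hx
          have h3 : 0 < (A.filter (fun a => x ∈ a)).card := by omega
          have h4 : 0 < (B.filter (fun a => x ∈ a)).card := by omega
          obtain ⟨a, ha⟩ := Finset.card_pos.mp h3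
          obtain ⟨b, hb⟩ := Finset.card_pos.mp h4
          rw [Finset.mem_filter] at ha hb
          have h5 := hAB a ha.1 b hb.1
          rw [Finset.card_eq_zero] at h5
          have h6 : x ∈ a ∩ b := Finset.mem_inter.mpr ⟨ha.2, hb.2⟩
          rw [h5] at h6
          exact Finset.notMem_empty x h6
      · by_cases h2l : V.card < 2 * l
        · exact hAVG hPF ι l V A B hl h2l hA hB hAB
            (fun x hx A' B' => ih' x hx (l - 1) A' B')
        · push Not at h2l
          by_cases hA3 : 3 ≤ A.card
          · by_cases hB3 : 3 ≤ B.card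
            · have h := hREG ι l V A B hA hB hl h2l hA3 hB3 hx1 hx2 hAB
              have h' := hPF.2.2.2 l V.card h2l
              have h4 : 2 ^ V.card = 2 ^ (V.card - 2 * l) * 4 ^ l := by
                have h5 : (4 : ℕ) ^ l = 2 ^ (2 * l) := by
                  rw [pow_mul]
                  norm_num
                rw [h5, ← pow_add]
                congr 1
                omega
              refine le_trans ?_ h'
              have h6 : A.card * B.card * 4 ^ l ≤
                  2 ^ (V.card - 2 * l) * (2 * l).choose l * 4 ^ l := by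
                calc A.card * B.card * 4 ^ l ≤ 2 ^ V.card * (2 * l).choose l := h
                  _ = 2 ^ (V.card - 2 * l) * (2 * l).choose l * 4 ^ l := by rw [h4]; ring
              exact Nat.le_of_mul_le_mul_right h6 (by positivity)
            · rw [mul_comm]
              exact small hPF l V B A hB hA hBne (by omega) hx2
                (fun b hb a ha => by rw [Finset.inter_comm]; exact hAB a ha b hb)
          · exact small hPF l V A B hA hB hAne (by omega) hx1 hAB
  exact main V.card l V A B rfl

end Pool.Agent.W403.AHC
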